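import Pool.Agent.Lib.MP_0a1b52_lc_SG.Main

/-!
# MP_0a1b52_lc: circuits for the clique function must break symmetries

Let the group `Γ = Alt(B_1) × … × Alt(B_j)` act on the graphs with vertex set `{1, …, n}`, where
`B_1, …, B_j` are disjoint blocks of `m` vertices.  There are a graph `G₁` with a clique of more than
`√n` vertices and a graph `G₀` without a clique of more than `√n - (1 - 1/q) j` vertices such that no
circuit whose gates compute functions with less than `m ^ r` images under `Γ` distinguishes the
images of `G₁` from the images of `G₀`: it takes every value equally often.  The circuits have any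
size and depth; their gates add up arbitrarily many real terms, each an arbitrary function of `t`
gates, or compare such a sum with a threshold, or reduce such a sum modulo `ℓ`.
-/

namespace Pool.Agent.Results.MP_0a1b52_lc.SymmetryBreaking

open Pool.Agent.SymGap

/-- **Circuits for the clique function must break symmetries.** -/
theorem result (h ℓ : ℕ) (hh : 1 ≤ h) (hl : 1 ≤ ℓ) : ∃ C : ℕ, ∀ q t r m j n : ℕ,
    1 ≤ q → 1 ≤ t → 1 ≤ r → C * q ≤ m ^ h → C * q * (q * t * r) ^ h ≤ j ^ h → j ^ 2 ≤ n →
    ∀ β : Fin j × Fin m ↪ Fin n,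
    ∃ G₁ G₀ : SimpleGraph (Fin n),
      (∃ K : Finset (Fin n), G₁.IsClique (K : Set (Fin n)) ∧ √(n : ℝ) < K.card) ∧
      (∀ K : Finset (Fin n), G₀.IsClique (K : Set (Fin n)) →
        (K.card : ℝ) ≤ √(n : ℝ) - (1 - 1 / (q : ℝ)) * j) ∧
      ∀ (s : ℕ) (D : Circuit n s t ℓ), (∀ i, (images β (D.gateFun i)).ncard < m ^ r) →
        ∀ y : ℝ, {σ | D.gateFun D.out (act β σ G₁) = y}.ncard =
          {σ | D.gateFun D.out (act β σ G₀) = y}.ncard :=
  main_all h ℓ hh hl

end Pool.Agent.Results.MP_0a1b52_lc.SymmetryBreaking
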